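import Mathlib
import Pool.Agent.H91.SchrMain

/-!
# An invariant norm on the p-adic Schrödinger representation dominating no norm ‖·‖_α
-/

open scoped Matrix

namespace Pool.Agent.Results.MP_d060c1_nt.ExoticNorm

/-- The space 𝒮 of locally constant, compactly supported functions ℚ_p^d → ℂ_p. -/
def Sch (p : ℕ) [Fact p.Prime] (d : ℕ) : Set ((Fin d → ℚ_[p]) → ℂ_[p]) :=
  {f | IsLocallyConstant f ∧ HasCompactSupport f}

variable {p : ℕ} [hp : Fact p.Prime] {d : ℕ}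

/-- The action of the element [w, t] of the Heisenberg group, where w = (a, b) ∈ ℚ_p^d ⊕ ℚ_p^d and
t ∈ ℚ_p: (ρ([w, t]) f)(x) = ψ(t + a·b/2 + b·x) f(x + a). -/
noncomputable def rho (ψ : AddChar ℚ_[p] ℂ_[p]) (w : Fin d ⊕ Fin d → ℚ_[p]) (t : ℚ_[p])
    (f : (Fin d → ℚ_[p]) → ℂ_[p]) : (Fin d → ℚ_[p]) → ℂ_[p] :=
  fun x => ψ (t + (1 / 2) * ((w ∘ Sum.inl) ⬝ᵥ (w ∘ Sum.inr)) + (w ∘ Sum.inr) ⬝ᵥ x)
    * f (x + w ∘ Sum.inl)

/-- N is a non-archimedean norm on 𝒮 (only the values of N on 𝒮 matter). -/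
structure IsNorm (N : ((Fin d → ℚ_[p]) → ℂ_[p]) → ℝ) : Prop where
  eq_zero_iff : ∀ f ∈ Sch p d, N f = 0 ↔ f = 0
  smul : ∀ c : ℂ_[p], ∀ f ∈ Sch p d, N (c • f) = ‖c‖ * N f
  add_le : ∀ f ∈ Sch p d, ∀ h ∈ Sch p d, N (f + h) ≤ max (N f) (N h)

/-- Invariance of a norm under the Heisenberg group. -/
def IsInvariant (ψ : AddChar ℚ_[p] ℂ_[p]) (N : ((Fin d → ℚ_[p]) → ℂ_[p]) → ℝ) : Prop :=
  ∀ w t, ∀ f ∈ Sch p d, N (rho ψ w t f) = N f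

/-- N dominates M: M ≤ c N on 𝒮 for some constant c > 0. -/
def Dominates (N M : ((Fin d → ℚ_[p]) → ℂ_[p]) → ℝ) : Prop :=
  ∃ c : ℝ, 0 < c ∧ ∀ f ∈ Sch p d, M f ≤ c * N f

/-- Membership in Sp_{2d}(ℚ_p): g J gᵀ = J with J = (0 I; -I 0). -/
def IsSymplectic (g : Matrix (Fin d ⊕ Fin d) (Fin d ⊕ Fin d) ℚ_[p]) : Prop :=
  g * Matrix.fromBlocks 0 1 (-1) 0 * gᵀ = Matrix.fromBlocks 0 1 (-1) 0

/-- T is an invertible linear operator T_g on 𝒮: ρ([w, t]) ∘ T = T ∘ ρ([w g, t]) for all [w, t]. -/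
structure IsTg (ψ : AddChar ℚ_[p] ℂ_[p]) (g : Matrix (Fin d ⊕ Fin d) (Fin d ⊕ Fin d) ℚ_[p])
    (T : ((Fin d → ℚ_[p]) → ℂ_[p]) → ((Fin d → ℚ_[p]) → ℂ_[p])) : Prop where
  bij : Set.BijOn T (Sch p d) (Sch p d)
  add : ∀ f ∈ Sch p d, ∀ h ∈ Sch p d, T (f + h) = T f + T h
  smul : ∀ c : ℂ_[p], ∀ f ∈ Sch p d, T (c • f) = c • T f
  comm : ∀ w t, ∀ f ∈ Sch p d, rho ψ w t (T f) = T (rho ψ (w ᵥ* g) t f)

/-- The indicator function of ℤ_p^d. -/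
noncomputable def vac : (Fin d → ℚ_[p]) → ℂ_[p] := Set.indicator {x | ∀ i, ‖x i‖ ≤ 1} (fun _ => 1)

/-- M is the norm ‖·‖_α attached to the class α = P g of g: a positive multiple of
f ↦ sup_x |T_g(f)(x)| with value 1 at the indicator function of ℤ_p^d. -/
def IsAlphaNorm (ψ : AddChar ℚ_[p] ℂ_[p]) (g : Matrix (Fin d ⊕ Fin d) (Fin d ⊕ Fin d) ℚ_[p])
    (M : ((Fin d → ℚ_[p]) → ℂ_[p]) → ℝ) : Prop :=
  ∃ T, IsTg ψ g T ∧ (∃ c : ℝ, 0 < c ∧ ∀ f ∈ Sch p d, M f = c * ⨆ x, ‖T f x‖) ∧ M vac = 1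

theorem norm_p (p : ℕ) [Fact p.Prime] : ‖(p : ℂ_[p])‖ = (p : ℝ)⁻¹ := by
  have h1 : ((p : ℚ_[p]) : ℂ_[p]) = (p : ℂ_[p]) := by
    rw [← map_natCast (algebraMap ℚ_[p] ℂ_[p]) p]; rfl
  rw [← h1, PadicComplex.norm_extends', Padic.norm_p]

/-- For every prime p, every d ≥ 1 and every nontrivial smooth character ψ : ℚ_p → ℂ_p^× there is
an invariant norm on 𝒮 that dominates none of the norms ‖·‖_α. -/
theorem result (p : ℕ) [Fact p.Prime] (d : ℕ) (hd : 1 ≤ d) (ψ : AddChar ℚ_[p] ℂ_[p])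
    (hψ : IsOpen {x | ψ x = 1}) (hne : ∃ x, ψ x ≠ 1) :
    ∃ N : ((Fin d → ℚ_[p]) → ℂ_[p]) → ℝ, IsNorm N ∧ IsInvariant ψ N ∧
      ∀ g : Matrix (Fin d ⊕ Fin d) (Fin d ⊕ Fin d) ℚ_[p], IsSymplectic g →
        ∀ M, IsAlphaNorm ψ g M → ¬ Dominates N M := by
  classical
  have : CharZero ℂ_[p] := charZero_of_injective_algebraMap (algebraMap ℚ_[p] ℂ_[p]).injective
  obtain ⟨N0, hN0, hinv0, hdom0⟩ := H91.Schr.main (norm_p p) hd ψ hψ hne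
  have hrho : ∀ (w : Fin d ⊕ Fin d → ℚ_[p]) (t : ℚ_[p]) (f : H91.Schr.Schwartz p d ℂ_[p]),
      (H91.Schr.rho ψ hψ w t f).1 = rho ψ w t f.1 := fun w t f => rfl
  let N : ((Fin d → ℚ_[p]) → ℂ_[p]) → ℝ := fun f =>
    if h : f ∈ Sch p d then N0 ⟨f, h⟩ else 0
  have hN : ∀ f (h : f ∈ Sch p d), N f = N0 ⟨f, h⟩ := fun f h => dif_pos h
  refine ⟨N, ⟨?_, ?_, ?_⟩, ?_, ?_⟩
  · intro f hf
    rw [hN f hf, hN0.eq_zero_iff]
    constructor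
    · intro h; exact congrArg Subtype.val h
    · intro h; exact Subtype.ext h
  · intro c f hf
    have hcf : c • f ∈ Sch p d := (c • (⟨f, hf⟩ : H91.Schr.Schwartz p d ℂ_[p])).2
    rw [hN f hf, hN _ hcf, ← hN0.smul]
    rfl
  · intro f hf h hh
    have hfh : f + h ∈ Sch p d :=
      ((⟨f, hf⟩ : H91.Schr.Schwartz p d ℂ_[p]) + (⟨h, hh⟩ : H91.Schr.Schwartz p d ℂ_[p])).2
    rw [hN f hf, hN h hh, hN _ hfh]
    exact hN0.add_le ⟨f, hf⟩ ⟨h, hh⟩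
  · intro w t f hf
    have hrf : rho ψ w t f ∈ Sch p d := (H91.Schr.rho ψ hψ w t ⟨f, hf⟩).2
    rw [hN f hf, hN _ hrf]
    exact hinv0 w t ⟨f, hf⟩
  · rintro g hg M ⟨T, hT, ⟨c, hc, hM⟩, hM1⟩ ⟨c', hc', hdom⟩
    -- the linear equivalence attached to T
    let T1 : H91.Schr.Schwartz p d ℂ_[p] →ₗ[ℂ_[p]] H91.Schr.Schwartz p d ℂ_[p] :=
      { toFun := fun f => ⟨T f.1, hT.bij.mapsTo f.2⟩
        map_add' := fun f h => Subtype.ext (hT.add f.1 f.2 h.1 h.2)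
        map_smul' := fun c f => Subtype.ext (hT.smul c f.1 f.2) }
    have hT1 : Function.Bijective T1 := by
      constructor
      · intro f h hfh
        exact Subtype.ext (hT.bij.injOn f.2 h.2 (congrArg Subtype.val hfh))
      · intro f
        obtain ⟨h, hh, hhf⟩ := hT.bij.surjOn f.2
        exact ⟨⟨h, hh⟩, Subtype.ext hhf⟩
    refine hdom0 g hg (fun f => M f.1) ⟨LinearEquiv.ofBijective T1 hT1, ?_, c, hc, ?_, ?_⟩
      ⟨c', hc', ?_⟩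
    · intro w t f
      exact Subtype.ext (hT.comm w t f.1 f.2)
    · intro f
      exact hM f.1 f.2
    · have : (H91.Schr.ind ℂ_[p] (fun _ => 0) : H91.Schr.Schwartz p d ℂ_[p]).1 = vac := by
        show Set.indicator (H91.Schr.box fun _ => 0) (fun _ => (1 : ℂ_[p])) = _
        unfold vac
        have hs : H91.Schr.box (p := p) (fun _ : Fin d => 0) = {x | ∀ i, ‖x i‖ ≤ 1} := by
          ext x
          simp [H91.Schr.box]
        rw [hs]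
      show M (H91.Schr.ind ℂ_[p] (fun _ => 0) : H91.Schr.Schwartz p d ℂ_[p]).1 = 1
      rw [this]; exact hM1
    · intro f
      have := hdom f.1 f.2
      rwa [hN f.1 f.2] at this

end Pool.Agent.Results.MP_d060c1_nt.ExoticNorm
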